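import Mathlib
import Pool.Agent.V1116.HellyTorus

/-!
# The Helly dimension of diagonalizable groups
-/

open Pool.Agent.V1116.HellyCore Pool.Agent.V1116.HellyTorus

namespace Pool.Agent.Results.MP_baf67b_al.HellyDimension

variable {K : Type} [Field K] {N : ℕ}

/-- Zariski closed cosets in `G`. -/
def IsClosedCoset (G : Subgroup (T K N)) (C : Set (T K N)) : Prop :=
  ∃ g ∈ G, ∃ H : Subgroup (T K N), H ≤ G ∧ ZClosed (H : Set (T K N)) ∧
    C = {x | ∃ h ∈ H, x = g * h}

/-- Whenever finitely many Zariski closed cosets in `G` have empty intersection, some subfamily of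
at most `d` of them already has empty intersection. -/
def HellyProp (G : Subgroup (T K N)) (d : ℕ) : Prop :=
  ∀ (n : ℕ) (C : Fin n → Set (T K N)), (∀ i, IsClosedCoset G (C i)) → (⋂ i, C i) = ∅ →
    ∃ J : Finset (Fin n), J.card ≤ d ∧ (⋂ i ∈ J, C i) = ∅

/-- The Helly dimension. -/
noncomputable def kappa (G : Subgroup (T K N)) : ℕ := sInf {d | 0 < d ∧ HellyProp G d}

theorem closure_additive {X : Type} [CommGroup X] {m : ℕ} {e : Fin m → X}
    (he : Subgroup.closure (Set.range e) = ⊤) :
    AddSubgroup.closure (Set.range fun i => Additive.ofMul (e i)) = ⊤ := by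
  rw [eq_top_iff]
  intro χ _
  have h : Additive.toMul χ ∈ Subgroup.closure (Set.range e) := by rw [he]; trivial
  have key : ∀ ψ : X, ψ ∈ Subgroup.closure (Set.range e) →
      Additive.ofMul ψ ∈ AddSubgroup.closure (Set.range fun i => Additive.ofMul (e i)) := by
    intro ψ hψ
    induction hψ using Subgroup.closure_induction with
    | mem x hx =>
      obtain ⟨i, rfl⟩ := hx
      exact AddSubgroup.subset_closure ⟨i, rfl⟩
    | one => exact AddSubgroup.zero_mem _
    | mul x y _ _ hx hy => exact AddSubgroup.add_mem _ hx hy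
    | inv x _ hx => exact AddSubgroup.neg_mem _ hx
  exact key _ h

theorem helly [IsAlgClosed K] (G : Subgroup (T K N)) (hG : ZClosed (G : Set (T K N))) :
    HellyProp G (1 + rk (charGroup G)) := by
  classical
  intro n C hC hempty
  by_contra hcon
  push Not at hcon
  choose g hg H hHG hH hCH using hC
  obtain ⟨e, he⟩ := rk_spec G
  let X := Additive (charGroup G)
  let Λ : Fin n → AddSubgroup X := fun i =>
    { carrier := {χ | ∀ (h : T K N) (hh : h ∈ H i), ((Additive.toMul χ : charGroup G) : Hm G).hom ⟨h, hHG i hh⟩ = 1}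
      zero_mem' := fun h hh => rfl
      add_mem' := by
        intro χ ψ hχ hψ h hh
        show ((Additive.toMul χ : charGroup G) : Hm G).hom ⟨h, hHG i hh⟩ * ((Additive.toMul ψ : charGroup G) : Hm G).hom
          ⟨h, hHG i hh⟩ = 1
        rw [hχ h hh, hψ h hh, one_mul]
      neg_mem' := by
        intro χ hχ h hh
        show (((Additive.toMul χ : charGroup G) : Hm G).hom ⟨h, hHG i hh⟩)⁻¹ = 1
        rw [hχ h hh, inv_one] }
  let c : ∀ i, Λ i →+ Additive Kˣ := fun i =>
    { toFun := fun χ => Additive.ofMul (((Additive.toMul (χ : X) : charGroup G) : Hm G).hom ⟨g i, hg i⟩)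
      map_zero' := rfl
      map_add' := fun χ ψ => rfl }
  have hcompat : ∀ J : Finset (Fin n), J.card ≤ rk (charGroup G) + 1 → Compat Λ c J := by
    intro J hJ
    obtain ⟨y, hy⟩ := hcon J (by omega)
    rw [Set.mem_iInter₂] at hy
    by_cases hJe : J = ∅
    · subst hJe
      exact ⟨0, fun i hi => absurd hi (Finset.notMem_empty i)⟩
    obtain ⟨i₀, hi₀⟩ := Finset.nonempty_iff_ne_empty.mpr hJe
    have hyG : y ∈ G := by
      have := hy i₀ hi₀
      rw [hCH i₀] at this
      obtain ⟨h, hh, rfl⟩ := this
      exact mul_mem (hg i₀) (hHG i₀ hh)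
    refine ⟨{ toFun := fun χ => Additive.ofMul (((Additive.toMul χ : charGroup G) : Hm G).hom ⟨y, hyG⟩)
              map_zero' := rfl
              map_add' := fun χ ψ => rfl }, ?_⟩
    intro i hi z
    have h1 := hy i hi
    rw [hCH i] at h1
    obtain ⟨h, hh, hyh⟩ := h1
    show Additive.ofMul (((Additive.toMul (z : X) : charGroup G) : Hm G).hom ⟨y, hyG⟩) =
      Additive.ofMul (((Additive.toMul (z : X) : charGroup G) : Hm G).hom ⟨g i, hg i⟩)
    congr 1
    have h2 : (⟨y, hyG⟩ : G) = ⟨g i, hg i⟩ * ⟨h, hHG i hh⟩ := Subtype.ext hyh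
    rw [h2, map_mul, z.2 h hh, mul_one]
  obtain ⟨x, hx⟩ := compat_all (baer_units K) _ (closure_additive he) Λ c hcompat Finset.univ
  -- the point of `G` defined by `x`
  let ev : charGroup G →* Kˣ :=
    { toFun := fun χ => Additive.toMul (x (Additive.ofMul χ))
      map_one' := by
        show Additive.toMul (x 0) = 1
        rw [map_zero]; rfl
      map_mul' := fun χ ψ => by
        show Additive.toMul (x (Additive.ofMul χ + Additive.ofMul ψ)) = _
        rw [map_add]; rfl }
  let t : T K N := fun j => ev (res G (Pi.single j 1))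
  have hev : ∀ m : Fin N → ℤ, ev (res G m) = mono m t := by
    intro m
    have h1 : res G m = resHom G (Multiplicative.ofAdd m) := rfl
    have h2 : Multiplicative.ofAdd m = ∏ i, (Multiplicative.ofAdd (Pi.single i (1 : ℤ) :
        Fin N → ℤ)) ^ (m i) := by
      apply Multiplicative.toAdd.injective
      show m = Multiplicative.toAdd (∏ i, (Multiplicative.ofAdd (Pi.single i (1 : ℤ) :
        Fin N → ℤ)) ^ (m i))
      rw [toAdd_prod]
      funext j
      rw [Finset.sum_apply, Finset.sum_eq_single j]
      · simp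
      · intro i _ hi
        simp [Pi.single_eq_of_ne (Ne.symm hi)]
      · intro h
        exact absurd (Finset.mem_univ _) h
    rw [h1, h2, map_prod, map_prod, mono_apply]
    refine Finset.prod_congr rfl fun i _ => ?_
    rw [map_zpow, map_zpow]
    rfl
  have htG : t ∈ G := by
    apply mem_of_mono hG
    intro m hm
    rw [← hev]
    have h1 : res G m = 1 := by
      apply Subtype.ext
      apply Hm.ext
      intro y
      exact hm y y.2
    rw [h1, map_one]
  have hevt : ∀ χ : charGroup G, ev χ = (χ : Hm G).hom ⟨t, htG⟩ := by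
    intro χ
    obtain ⟨m, rfl⟩ := res_surj G χ
    rw [hev, res_apply]
  have hmem : t ∈ ⋂ i, C i := by
    rw [Set.mem_iInter]
    intro i
    rw [hCH i]
    refine ⟨(g i)⁻¹ * t, ?_, by rw [mul_inv_cancel_left]⟩
    apply mem_of_mono (hH i)
    intro m hm
    have h1 : Additive.ofMul (res G m) ∈ Λ i := fun h hh => hm h hh
    have h2 := hx i (Finset.mem_univ i) ⟨_, h1⟩
    have h3 : ev (res G m) = mono m (g i) := by
      have h4 : x (Additive.ofMul (res G m)) = Additive.ofMul (mono m (g i)) := h2
      show Additive.toMul (x (Additive.ofMul (res G m))) = mono m (g i)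
      rw [h4]
      rfl
    rw [map_mul, map_inv, ← hev, h3, inv_mul_cancel]
  rw [hempty] at hmem
  exact hmem

/-- **Theorem.** Let `K` be an algebraically closed field and `G` a Zariski closed subgroup of
`(Kˣ)ᴺ`. Then `κ(G) ≤ 1 + rk(X(G))`. -/
theorem result (K : Type) [Field K] [IsAlgClosed K] (N : ℕ) (G : Subgroup (T K N))
    (hG : ZClosed (G : Set (T K N))) :
    (∃ e : Fin (rk (charGroup G)) → charGroup G, Subgroup.closure (Set.range e) = ⊤) ∧
      HellyProp G (1 + rk (charGroup G)) ∧ kappa G ≤ 1 + rk (charGroup G) :=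
  ⟨rk_spec G, helly G hG, Nat.sInf_le ⟨by omega, helly G hG⟩⟩

end Pool.Agent.Results.MP_baf67b_al.HellyDimension
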